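import Pool.Agent.V11329.BW.Final

/-! MP_763ca5_pr: on regular graphs of growing degree a vanishing bias never gives a linear cover
time; quantitatively `E_v[τ_cov] ≥ c n min(log d, log(1/ε))` for every strategy. -/

set_option autoImplicit false

namespace Pool.Agent.Results.MP_763ca5_pr.NoLinearCover

open V11329.BW Filter Topology
open scoped Classical NNReal

theorem result :
    (∃ c : ℝ, 0 < c ∧ ∀ (V : Type) [Fintype V] (G : SimpleGraph V) (d : ℕ) (ε : ℝ),
      G.IsRegularOfDegree d → 2 ≤ d → 0 < ε → ε ≤ 1 → ∀ (v : V) (σ : Strategy G),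
        ENNReal.ofReal (c * Fintype.card V * min (Real.log d) (Real.log (1 / ε)))
          ≤ expCover G ε σ v) ∧
    (¬ ∃ (n : ℕ → ℕ) (G : ∀ k, SimpleGraph (Fin (n k))) (d : ℕ → ℕ) (ε : ℕ → ℝ) (C : ℝ≥0),
      (∀ k, (G k).Connected) ∧ (∀ k, (G k).IsRegularOfDegree (d k)) ∧
      Tendsto d atTop atTop ∧ (∀ k, 0 < ε k ∧ ε k ≤ 1) ∧ Tendsto ε atTop (𝓝 0) ∧
      ∃ᶠ k in atTop, tcov (G k) (ε k) ≤ C * n k) := by
  obtain ⟨c, hc, hbound⟩ := log_bound
  refine ⟨⟨c, hc, fun V _ G d ε hreg hd h0 h1 v σ =>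
    hbound V G d ε (nbrs_card_of_regular G hreg) hd h0 h1 v σ⟩, ?_⟩
  rintro ⟨n, G, d, ε, C, _, hreg, hd, hε, hε0, hC⟩
  have hd1 : Tendsto (fun k => Real.log (d k)) atTop atTop :=
    Real.tendsto_log_atTop.comp (tendsto_natCast_atTop_atTop.comp hd)
  have hε1 : Tendsto (fun k => Real.log (1 / ε k)) atTop atTop := by
    have h2 : Tendsto ε atTop (𝓝[>] 0) :=
      tendsto_nhdsWithin_iff.2 ⟨hε0, Eventually.of_forall (fun k => (hε k).1)⟩
    have h3 : Tendsto (fun k => (ε k)⁻¹) atTop atTop := tendsto_inv_nhdsGT_zero.comp h2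
    have h4 := Real.tendsto_log_atTop.comp h3
    refine h4.congr (fun k => ?_)
    simp only [Function.comp, one_div]
  have e1 := hd1.eventually_gt_atTop ((C:ℝ) / c)
  have e2 := hε1.eventually_gt_atTop ((C:ℝ) / c)
  have e3 := hd.eventually_ge_atTop 2
  obtain ⟨k, hk, h1, h2, h3⟩ := (hC.and_eventually (e1.and (e2.and e3))).exists
  -- the graph is nonempty
  have hv : Nonempty (Fin (n k)) := by
    by_contra hne
    have : n k = 0 := by
      by_contra h0
      exact hne ⟨⟨0, Nat.pos_of_ne_zero h0⟩⟩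
    rename_i hcon
    exact hne (hcon k).nonempty
  obtain ⟨v⟩ := hv
  have hinf : ENNReal.ofReal (c * Fintype.card (Fin (n k))
      * min (Real.log (d k)) (Real.log (1 / ε k))) ≤ tcov (G k) (ε k) := by
    unfold tcov
    refine le_trans ?_ (le_iSup _ v)
    exact le_iInf (fun σ => hbound (Fin (n k)) (G k) (d k) (ε k)
      (nbrs_card_of_regular (G k) (hreg k)) h3 (hε k).1 (hε k).2 v σ)
  have hle := hinf.trans hk
  have hnpos : (0:ℝ) < n k := by
    have : 0 < n k := lt_of_le_of_lt (Nat.zero_le _) v.2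
    exact_mod_cast this
  have e4 : (C : ENNReal) * (n k : ENNReal) = ENNReal.ofReal ((C:ℝ) * n k) := by
    rw [ENNReal.ofReal_mul (NNReal.coe_nonneg C), ENNReal.ofReal_coe_nnreal, ENNReal.ofReal_natCast]
  rw [e4, Fintype.card_fin, ENNReal.ofReal_le_ofReal_iff (by positivity)] at hle
  have hmin : (C:ℝ) / c < min (Real.log (d k)) (Real.log (1 / ε k)) := lt_min h1 h2
  rw [div_lt_iff₀ hc] at hmin
  have : (C:ℝ) * n k < c * n k * min (Real.log (d k)) (Real.log (1 / ε k)) := by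
    calc (C:ℝ) * n k < (min (Real.log (d k)) (Real.log (1 / ε k)) * c) * n k :=
          mul_lt_mul_of_pos_right hmin hnpos
      _ = _ := by ring
  linarith

end Pool.Agent.Results.MP_763ca5_pr.NoLinearCover
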